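import Pool.Agent.Helper92.LV.Stmts
import Pool.Agent.Helper54.LS.Ker0
import Pool.Agent.Helper54.LS.K3

open Filter Topology NumberField

namespace Pool.Agent.Helper92.LV

open Pool.Agent.Helper42.LS Pool.Agent.Helper42.LK Pool.Agent.Helper54.LS

/-- cosine transform of a sequence -/
noncomputable def btT (u : ℕ → ℝ) (θ : ℝ) : ℝ :=
  ∑' j : ℕ, u j * Real.cos (2 * Real.pi * (j * θ))

lemma bt_cos_summable {u : ℕ → ℝ} (hu : Summable (fun j => |u j|)) (θ : ℝ) :
    Summable (fun j : ℕ => u j * Real.cos (2 * Real.pi * (j * θ))) := by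
  apply Summable.of_norm_bounded hu
  intro j
  rw [Real.norm_eq_abs, abs_mul]
  exact mul_le_of_le_one_right (abs_nonneg _) (Real.abs_cos_le_one _)

lemma bt_T_int (u : ℕ → ℝ) (m : ℤ) : btT u (m : ℝ) = ∑' j, u j := by
  unfold btT
  apply tsum_congr
  intro j
  have : Real.cos (2 * Real.pi * ((j : ℝ) * (m : ℝ))) = 1 := by
    rw [← Real.cos_int_mul_two_pi ((j : ℤ) * m)]
    congr 1
    push_cast
    ring
  rw [this, mul_one]

/-- general term of the double series -/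
noncomputable def btg (u : ℕ → ℝ) (α : ℝ) (j k : ℕ) : ℝ :=
  u j * (1 / (Real.pi ^ 2 * ((k : ℝ) + 1) ^ 2) *
    Real.cos (2 * Real.pi * (((k : ℝ) + 1) * ((j : ℝ) * α))))

lemma bt_summable_g {u : ℕ → ℝ} (hu : Summable (fun j => |u j|)) (α : ℝ) :
    Summable (Function.uncurry (btg u α)) := by
  have hprod : Summable (fun q : ℕ × ℕ =>
      |u q.1| * (1 / (Real.pi ^ 2 * ((q.2 : ℝ) + 1) ^ 2))) :=
    hu.mul_of_nonneg summable_inv_sq (fun j => abs_nonneg _) (fun k => by positivity)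
  apply Summable.of_norm_bounded hprod
  rintro ⟨j, k⟩
  show ‖btg u α j k‖ ≤ |u j| * (1 / (Real.pi ^ 2 * ((k : ℝ) + 1) ^ 2))
  unfold btg
  have h0 : (0 : ℝ) ≤ 1 / (Real.pi ^ 2 * ((k : ℝ) + 1) ^ 2) := by positivity
  rw [Real.norm_eq_abs, abs_mul, abs_mul, abs_of_nonneg h0]
  exact mul_le_mul_of_nonneg_left (mul_le_of_le_one_right h0 (Real.abs_cos_le_one _))
    (abs_nonneg _)

lemma bt_g_right (u : ℕ → ℝ) (α : ℝ) (j : ℕ) : ∑' k : ℕ, btg u α j k = u j * B2 (j * α) := by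
  rw [B2_series, ← tsum_mul_left]
  rfl

lemma bt_g_left (u : ℕ → ℝ) (α : ℝ) (k : ℕ) : ∑' j : ℕ, btg u α j k =
    1 / (Real.pi ^ 2 * ((k : ℝ) + 1) ^ 2) * btT u (((k : ℝ) + 1) * α) := by
  unfold btT
  rw [← tsum_mul_left]
  apply tsum_congr
  intro j
  unfold btg
  rw [show ((k : ℝ) + 1) * ((j : ℝ) * α) = (j : ℝ) * (((k : ℝ) + 1) * α) by ring]
  ring

lemma bt_swap {u : ℕ → ℝ} (hu : Summable (fun j => |u j|)) (α : ℝ) :
    Summable (fun k : ℕ => 1 / (Real.pi ^ 2 * ((k : ℝ) + 1) ^ 2) * btT u (((k : ℝ) + 1) * α)) ∧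
    ∑' j : ℕ, u j * B2 (j * α) =
    ∑' k : ℕ, 1 / (Real.pi ^ 2 * ((k : ℝ) + 1) ^ 2) * btT u (((k : ℝ) + 1) * α) := by
  constructor
  · have h2 := (summable_inv_sq).mul_left (∑' j, |u j|)
    apply Summable.of_norm_bounded h2
    intro k
    have h0 : (0 : ℝ) ≤ 1 / (Real.pi ^ 2 * ((k : ℝ) + 1) ^ 2) := by positivity
    rw [Real.norm_eq_abs, abs_mul, abs_of_nonneg h0, mul_comm]
    apply mul_le_mul_of_nonneg_right _ h0
    unfold btT
    rw [← Real.norm_eq_abs]
    have hs := bt_cos_summable hu (((k : ℝ) + 1) * α)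
    refine (norm_tsum_le_tsum_norm hs.norm).trans ?_
    apply Summable.tsum_le_tsum _ hs.norm hu
    intro j
    rw [Real.norm_eq_abs, abs_mul]
    exact mul_le_of_le_one_right (abs_nonneg _) (Real.abs_cos_le_one _)
  · have h := (bt_summable_g hu α).tsum_comm
    have h1 : ∑' k : ℕ, ∑' j : ℕ, btg u α j k = ∑' j : ℕ, ∑' k : ℕ, btg u α j k := h
    rw [← tsum_congr (bt_g_right u α), ← tsum_congr (bt_g_left u α), h1]

/-- orthogonality -/
lemma bt_orth (m j : ℕ) (hm : 1 ≤ m) :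
    ∑ a ∈ Finset.range m, Real.cos (2 * Real.pi * ((j : ℝ) * ((a : ℝ) / m))) =
      if m ∣ j then (m : ℝ) else 0 := by
  have hm0 : (m : ℝ) ≠ 0 := by positivity
  split_ifs with h
  · obtain ⟨i, rfl⟩ := h
    rw [Finset.sum_congr rfl (g := fun _ => (1 : ℝ))]
    · simp
    · intro a _
      rw [← Real.cos_int_mul_two_pi ((i : ℤ) * a)]
      congr 1
      push_cast
      field_simp
  · obtain ⟨x, hx⟩ : ∃ x : ℝ, x = Real.pi * j / m := ⟨_, rfl⟩
    have hs : Real.sin x ≠ 0 := by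
      intro h0
      rw [Real.sin_eq_zero_iff] at h0
      obtain ⟨n, hn⟩ := h0
      apply h
      rw [hx, eq_div_iff hm0] at hn
      have h1 : (n : ℝ) * m = j := by
        have hpi := Real.pi_ne_zero
        have h2 : Real.pi * ((n : ℝ) * m) = Real.pi * j := by linarith
        exact mul_left_cancel₀ hpi h2
      have h2 : n * (m : ℤ) = (j : ℤ) := by exact_mod_cast h1
      have h3 : (m : ℤ) ∣ (j : ℤ) := ⟨n, by rw [← h2, mul_comm]⟩
      exact_mod_cast h3
    have hstep : ∀ a : ℕ, 2 * Real.sin x * Real.cos (2 * Real.pi * ((j : ℝ) * ((a : ℝ) / m))) =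
        Real.sin ((2 * ((a + 1 : ℕ) : ℝ) - 1) * x) - Real.sin ((2 * (a : ℝ) - 1) * x) := by
      intro a
      have e1 : 2 * Real.pi * ((j : ℝ) * ((a : ℝ) / m)) = 2 * a * x := by
        rw [hx]; field_simp
      have e2 : (2 * ((a + 1 : ℕ) : ℝ) - 1) * x = 2 * a * x + x := by push_cast; ring
      have e3 : (2 * (a : ℝ) - 1) * x = 2 * a * x - x := by ring
      rw [e1, e2, e3, Real.sin_add, Real.sin_sub]
      ring
    have htel : 2 * Real.sin x *
        ∑ a ∈ Finset.range m, Real.cos (2 * Real.pi * ((j : ℝ) * ((a : ℝ) / m))) = 0 := by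
      rw [Finset.mul_sum, Finset.sum_congr rfl (fun a _ => hstep a),
        Finset.sum_range_sub (fun a : ℕ => Real.sin ((2 * (a : ℝ) - 1) * x))]
      have e4 : (2 * (m : ℝ) - 1) * x = -x + j * (2 * Real.pi) := by
        rw [hx]; field_simp; ring
      rw [e4]
      have e5 : Real.sin (-x + (j : ℝ) * (2 * Real.pi)) = Real.sin (-x) :=
        Real.sin_add_nat_mul_two_pi (-x) j
      rw [e5]
      have e6 : (2 * ((0 : ℕ) : ℝ) - 1) * x = -x := by push_cast; ring
      rw [e6, sub_self]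
    rcases mul_eq_zero.1 htel with h1 | h1
    · exact absurd h1 (mul_ne_zero two_ne_zero hs)
    · exact h1

/-- sum over multiples -/
lemma bt_multiples {u : ℕ → ℝ} (hu : Summable (fun j => |u j|)) (m : ℕ) (hm : 1 ≤ m) :
    (m : ℝ) * ∑' i : ℕ, u (m * i) = ∑ a ∈ Finset.range m, btT u ((a : ℝ) / m) := by
  unfold btT
  have h0 : ∑ a ∈ Finset.range m, ∑' j : ℕ, u j * Real.cos (2 * Real.pi * (j * ((a : ℝ) / m))) =
      ∑' j : ℕ, ∑ a ∈ Finset.range m, u j * Real.cos (2 * Real.pi * (j * ((a : ℝ) / m))) :=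
    (Summable.tsum_finsetSum
      (f := fun (a : ℕ) (j : ℕ) => u j * Real.cos (2 * Real.pi * (j * ((a : ℝ) / m))))
      (fun (a : ℕ) _ => bt_cos_summable hu ((a : ℝ) / m))).symm
  rw [h0]
  have h1 : ∀ j : ℕ, ∑ a ∈ Finset.range m, u j * Real.cos (2 * Real.pi * ((j : ℝ) *
      ((a : ℝ) / m))) = if m ∣ j then (m : ℝ) * u j else 0 := by
    intro j
    rw [← Finset.mul_sum, bt_orth m j hm]
    split_ifs
    · ring
    · ring
  rw [tsum_congr h1]
  have hinj : Function.Injective (fun i : ℕ => m * i) := by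
    intro i i' h
    exact Nat.eq_of_mul_eq_mul_left (by omega) h
  rw [← hinj.tsum_eq (f := fun j : ℕ => if m ∣ j then (m : ℝ) * u j else 0)]
  · rw [← tsum_mul_left]
    apply tsum_congr
    intro i
    simp
  · intro j hj
    rw [Function.mem_support] at hj
    by_cases hd : m ∣ j
    · obtain ⟨i, rfl⟩ := hd
      exact ⟨i, rfl⟩
    · rw [if_neg hd] at hj
      exact absurd rfl hj

lemma bt_wg_nonneg (b : ℝ) (j : ℕ) : 0 ≤ wg b j := by
  unfold wg
  have h := Real.cos_le_one (2 * Real.pi * (b * j))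
  have h1 : 0 ≤ 1 - Real.cos (2 * Real.pi * (b * j)) := by linarith
  positivity

theorem st_BT (hGK : ST_GK) (hGS : ST_GS) (hK1 : ST_K1) (hK2 : ST_K2) : ST_BT := by
  obtain ⟨C, hC, hGS⟩ := hGS
  obtain ⟨k₁, k₂, hk₁, hk₂, hK2⟩ := hK2
  have hpi := Real.pi_pos
  obtain ⟨τ, hτd⟩ : ∃ τ : ℝ, τ = min (1 / 9) (k₁ / (2 * C)) := ⟨_, rfl⟩
  have hτ0 : 0 < τ := by rw [hτd]; exact lt_min (by norm_num) (by positivity)
  have hτ9 : τ ≤ 1 / 9 := by rw [hτd]; exact min_le_left _ _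
  have hτC : τ * C ≤ k₁ / 2 := by
    have h1 : τ ≤ k₁ / (2 * C) := by rw [hτd]; exact min_le_right _ _
    calc τ * C ≤ k₁ / (2 * C) * C := mul_le_mul_of_nonneg_right h1 hC.le
      _ = k₁ / 2 := by field_simp
  obtain ⟨c, hcd⟩ : ∃ c : ℝ, c = min (4 * Real.pi ^ 6 * τ) (k₁ / 2) := ⟨_, rfl⟩
  have hc0 : 0 < c := by rw [hcd]; exact lt_min (by positivity) (by positivity)
  have hc1 : c ≤ 4 * Real.pi ^ 6 * τ := by rw [hcd]; exact min_le_left _ _
  have hc2 : c ≤ k₁ / 2 := by rw [hcd]; exact min_le_right _ _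
  refine ⟨τ, c / 6, max (2 * C) k₂, hτ0, hτ9, by positivity,
    lt_max_of_lt_left (by positivity), ?_⟩
  intro b hb hb6
  obtain ⟨hgs1, hgs2, hgs3⟩ := hGS b hb hb6
  obtain ⟨hk21, hk22, hk23, hk24⟩ := hK2 b hb hb6
  have hb1 : b ≤ 1 := by linarith
  have hwt0 := wt_nonneg b
  have hwg0 := bt_wg_nonneg b
  have hτb : 0 ≤ τ / b ^ 2 := by positivity
  -- pointwise bounds
  have habs : ∀ j : ℕ, |bt τ b j| ≤ wt b j + τ / b ^ 2 * wg b j := by
    intro j
    unfold bt
    have h1 := hwt0 j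
    have h2 := mul_nonneg hτb (hwg0 j)
    rw [abs_le]
    constructor <;> linarith
  have hs1 : Summable (fun j => wt b j + τ / b ^ 2 * wg b j) := hk21.add (hgs1.mul_left _)
  have hsum : Summable (fun j : ℕ => |bt τ b j|) :=
    Summable.of_nonneg_of_le (fun j => abs_nonneg _) habs hs1
  have hsum' : Summable (bt τ b) := hsum.of_abs
  have hwgb : τ / b ^ 2 * ∑' j, wg b j ≤ τ * C * b ^ 3 := by
    calc τ / b ^ 2 * ∑' j, wg b j ≤ τ / b ^ 2 * (C * b ^ 5) :=
          mul_le_mul_of_nonneg_left hgs2 hτb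
      _ = τ * C * b ^ 3 := by field_simp
  have hT0 : ∑' j, bt τ b j = WW b - τ / b ^ 2 * ∑' j, wg b j := by
    unfold bt WW
    rw [← tsum_mul_left, ← hk21.tsum_sub (hgs1.mul_left _)]
  have hT0' : c * b ^ 3 ≤ ∑' j, bt τ b j := by
    rw [hT0]
    have h1 : τ * C * b ^ 3 ≤ k₁ / 2 * b ^ 3 := mul_le_mul_of_nonneg_right hτC (by positivity)
    have h2 : c * b ^ 3 ≤ k₁ / 2 * b ^ 3 := mul_le_mul_of_nonneg_right hc2 (by positivity)
    have h3 : k₁ / 2 * b ^ 3 + k₁ / 2 * b ^ 3 = k₁ * b ^ 3 := by ring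
    linarith
  have hTI : ∀ m : ℤ, btT (bt τ b) (m : ℝ) = ∑' j, bt τ b j := fun m => bt_T_int _ m
  have hTF : ∀ θ : ℝ, 3 * b ≤ nd θ → btT (bt τ b) θ = 4 * Real.pi ^ 6 * τ * b ^ 4 := by
    intro θ hθ
    have h1 := hK1 b θ hb hb6 hθ
    have h2 := hGK b θ hb hb6 hθ
    have h3 : btT (bt τ b) θ = TT b θ - τ / b ^ 2 *
        ∑' j : ℕ, wg b j * Real.cos (2 * Real.pi * (j * θ)) := by
      unfold btT TT bt
      have hwabs : Summable (fun j => |wt b j|) := by
        simpa only [abs_of_nonneg (hwt0 _)] using hk21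
      have hgabs : Summable (fun j => |wg b j|) := by
        simpa only [abs_of_nonneg (hwg0 _)] using hgs1
      rw [← tsum_mul_left, ← (bt_cos_summable hwabs θ).tsum_sub
        ((bt_cos_summable hgabs θ).mul_left _)]
      apply tsum_congr
      intro j
      ring
    rw [h3, h1, h2]
    field_simp
    ring
  have hb43 : b ^ 4 ≤ b ^ 3 := by
    calc b ^ 4 = b ^ 3 * b := by ring
      _ ≤ b ^ 3 * 1 := mul_le_mul_of_nonneg_left hb1 (by positivity)
      _ = b ^ 3 := mul_one _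
  have hTlow : ∀ (n : ℕ) (θ : ℝ) (a : ℤ), 1 ≤ n → 3 * b * n ≤ 1 → (n : ℝ) * θ = a →
      c * b ^ 4 ≤ btT (bt τ b) θ := by
    intro n θ a hn hbn ha
    have hn' : (0 : ℝ) < n := by exact_mod_cast hn
    by_cases h : ∃ m : ℤ, θ = m
    · obtain ⟨m, rfl⟩ := h
      rw [hTI m]
      refine le_trans ?_ hT0'
      exact mul_le_mul_of_nonneg_left hb43 hc0.le
    · have h2 := nd_ge_of_rat n hn _ _ ha h
      rw [hTF θ (le_trans (by rw [le_div_iff₀ hn']; exact hbn) h2)]
      exact mul_le_mul_of_nonneg_right hc1 (by positivity)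
  refine ⟨hsum, ?_, ?_, ?_, ?_, ?_⟩
  · -- total variation
    calc ∑' j : ℕ, |bt τ b j| ≤ ∑' j, (wt b j + τ / b ^ 2 * wg b j) :=
          hsum.tsum_le_tsum habs hs1
      _ = WW b + τ / b ^ 2 * ∑' j, wg b j := by
          unfold WW
          rw [hk21.tsum_add (hgs1.mul_left _), tsum_mul_left]
      _ ≤ C * b ^ 3 + τ * C * b ^ 3 := add_le_add hgs3 hwgb
      _ = (C + τ * C) * b ^ 3 := by ring
      _ ≤ (2 * C) * b ^ 3 := by
          apply mul_le_mul_of_nonneg_right _ (by positivity)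
          nlinarith
      _ ≤ max (2 * C) k₂ * b ^ 3 :=
          mul_le_mul_of_nonneg_right (le_max_left _ _) (by positivity)
  · -- positivity
    intro j hj
    rcases Nat.eq_zero_or_pos j with h0 | h0
    · subst h0
      simp [bt, wt, wg]
    · have hj' : (0 : ℝ) < (j : ℝ) := by exact_mod_cast h0
      have hcos := Real.cos_le_one (2 * Real.pi * (b * j))
      have h1 : 0 ≤ 1 - Real.cos (2 * Real.pi * (b * j)) := by linarith
      have h2 : bt τ b j = (1 - Real.cos (2 * Real.pi * (b * j))) ^ 3 / (j : ℝ) ^ 6 *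
          (((b * j) ^ 2 - τ) / b ^ 2) := by
        unfold bt wt wg
        field_simp
      rw [h2]
      have h3 : 0 ≤ (b * j) ^ 2 - τ := by linarith
      positivity
  · -- second moment
    intro J
    calc ∑ j ∈ Finset.Icc 1 J, bt τ b j * (j : ℝ) ^ 2
        ≤ ∑ j ∈ Finset.Icc 1 J, wt b j * (j : ℝ) ^ 2 := by
          apply Finset.sum_le_sum
          intro j _
          apply mul_le_mul_of_nonneg_right _ (by positivity)
          unfold bt
          have h2 := mul_nonneg hτb (hwg0 j)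
          linarith
      _ ≤ VV b := hk22.sum_le_tsum _ (fun j _ => mul_nonneg (hwt0 j) (by positivity))
      _ ≤ k₂ * b := hk24
      _ ≤ max (2 * C) k₂ * b := mul_le_mul_of_nonneg_right (le_max_right _ _) hb.le
  · -- gain at rational angles
    intro n α hn hbn ha
    obtain ⟨a, ha⟩ := ha
    obtain ⟨hsw1, hsw2⟩ := bt_swap hsum α
    rw [hsw2]
    have hsum6 : ∑' m : ℕ, 1 / (Real.pi ^ 2 * ((m : ℝ) + 1) ^ 2) = 1 / 6 := by
      have h := B2_series 0
      have h0 : B2 0 = 1 / 6 := by simp [B2]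
      rw [h0] at h
      rw [h]
      apply tsum_congr
      intro k
      simp
    calc c / 6 * b ^ 4 = ∑' k : ℕ, 1 / (Real.pi ^ 2 * ((k : ℝ) + 1) ^ 2) * (c * b ^ 4) := by
          rw [tsum_mul_right, hsum6]; ring
      _ ≤ _ := by
          apply Summable.tsum_le_tsum _ (summable_inv_sq.mul_right _) hsw1
          intro k
          apply mul_le_mul_of_nonneg_left _ (by positivity)
          exact hTlow n _ (((k : ℤ) + 1) * a) hn hbn (by push_cast; rw [← ha]; ring)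
  · -- multiples
    intro m hm hbm
    have hm' : (0 : ℝ) < m := by exact_mod_cast hm
    rw [div_le_iff₀ hm', mul_comm (∑' i : ℕ, bt τ b (m * i)), bt_multiples hsum m hm]
    have h0 : (0 : ℕ) ∈ Finset.range m := Finset.mem_range.2 hm
    have h1 : btT (bt τ b) (((0 : ℕ) : ℝ) / m) ≤
        ∑ a ∈ Finset.range m, btT (bt τ b) ((a : ℝ) / m) := by
      apply Finset.single_le_sum (f := fun a : ℕ => btT (bt τ b) ((a : ℝ) / m)) _ h0
      intro a _
      have h2 := hTlow m ((a : ℝ) / m) a hm hbm (by push_cast; field_simp)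
      exact le_trans (by positivity) h2
    have h3 : btT (bt τ b) (((0 : ℕ) : ℝ) / m) = ∑' j, bt τ b j := by
      rw [← hTI 0]; simp
    rw [h3] at h1
    refine le_trans ?_ (hT0'.trans h1)
    apply mul_le_mul_of_nonneg_right _ (by positivity)
    linarith

end Pool.Agent.Helper92.LV
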