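import Pool.Agent.Helper92.LV.Stmts
import Pool.Agent.Helper42.LK.KFin

open Filter Topology NumberField

namespace Pool.Agent.Helper92.LV

open Pool.Agent.Helper42.LS Pool.Agent.Helper42.LK Pool.Agent.Helper54.LS

lemma fin_log {x r : ℝ} (hx : 1 ≤ x) (hr : 0 ≤ r) (hxr : x ≤ r ^ 2) :
    (1 + Real.log x) ^ 2 ≤ 16 * r := by
  obtain ⟨y, hy⟩ : ∃ y : ℝ, y = √(√x) := ⟨_, rfl⟩
  have hx0 : 0 < x := by linarith
  have hy0 : 0 < y := by rw [hy]; positivity
  have hy2 : y ^ 2 = √x := by rw [hy]; exact Real.sq_sqrt (Real.sqrt_nonneg _)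
  have hy4 : y ^ 4 = x := by
    calc y ^ 4 = (y ^ 2) ^ 2 := by ring
      _ = x := by rw [hy2]; exact Real.sq_sqrt hx0.le
  have h1 : Real.log x = 4 * Real.log y := by
    rw [← hy4, Real.log_pow]; norm_num
  have h2 := Real.log_le_sub_one_of_pos hy0
  have h3 : 0 ≤ Real.log x := Real.log_nonneg hx
  have h4 : 1 + Real.log x ≤ 4 * y := by linarith
  have h5 : √x ≤ r := by
    rw [← Real.sqrt_sq hr]
    exact Real.sqrt_le_sqrt hxr
  calc (1 + Real.log x) ^ 2 ≤ (4 * y) ^ 2 := pow_le_pow_left₀ (by linarith) h4 2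
    _ = 16 * y ^ 2 := by ring
    _ ≤ 16 * r := by rw [hy2]; linarith

/-- the kernel bound, without the error term -/
lemma fin_cor {C₀ c C b₀ : ℝ} (hc : 0 < c) (hC : 0 < C) (hb₀6 : b₀ ≤ 1 / 6)
    (hcor : ∀ {e : ℝ} {V Vf : Finset ℕ} {w t : ℕ → ℝ} {n : ℕ → ℕ}, 0 ≤ e → Vf ⊆ V →
    (∀ v ∈ V, 0 ≤ w v) → (∀ v ∈ Vf, 1 ≤ n v ∧ ∃ a : ℤ, (n v : ℝ) * t v = a) →
    MSgn C₀ e V w t → ∀ b : ℝ, 0 < b → b ≤ b₀ → ∀ G : Finset ℕ, G ⊆ Vf →
    (∀ v ∈ G, 3 * b * n v ≤ 1) → ∑ v ∈ V \ G, w v ≤ c * b * ∑ v ∈ V, w v →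
    c * b ^ 3 * (∑ v ∈ V, w v) - C * (1 + Real.log (1 / b)) ^ 2 * b ^ 2 ≤ e)
    {β : ℝ} (hβ : 0 < β) {H L Rd e : ℝ} {m : ℕ} {V Vf : Finset ℕ} {w t : ℕ → ℝ} {n : ℕ → ℕ}
    (he : 0 ≤ e) (hM : MSum C₀ H L Rd m e V Vf w t n) (hS : MSgn C₀ e V w t) {b r : ℝ}
    (hb : 0 < b) (hbb : b ≤ b₀) (hr : 0 < r) (hW : ∑ v ∈ V, w v = r ^ 4)
    (hβb : β ^ 2 ≤ b * r ^ 2) (hbig : 32 * C ≤ c * β ^ 3 * r) (G : Finset ℕ) (hG : G ⊆ Vf)
    (hGn : ∀ v ∈ G, 3 * b * n v ≤ 1) (hGw : ∑ v ∈ V \ G, w v ≤ c * b * ∑ v ∈ V, w v) :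
    c / 2 * b ^ 3 * r ^ 4 ≤ e := by
  have h := hcor he hM.sub hM.nonneg (fun v hv => ⟨hM.npos v hv, hM.int v hv⟩) hS b hb hbb G hG
    hGn hGw
  rw [hW] at h
  have h1 : 1 ≤ 1 / b := by
    rw [le_div_iff₀ hb]; linarith
  have h2 : 1 / b ≤ (r / β) ^ 2 := by
    rw [div_pow, div_le_div_iff₀ hb (by positivity)]
    linarith
  have h3 := fin_log h1 (by positivity) h2
  have h4 : C * (1 + Real.log (1 / b)) ^ 2 ≤ c / 2 * b * r ^ 4 := by
    calc C * (1 + Real.log (1 / b)) ^ 2 ≤ C * (16 * (r / β)) := mul_le_mul_of_nonneg_left h3 hC.le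
      _ = (32 * C) * (r / (2 * β)) := by ring
      _ ≤ (c * β ^ 3 * r) * (r / (2 * β)) := mul_le_mul_of_nonneg_right hbig (by positivity)
      _ = c / 2 * β ^ 2 * r ^ 2 := by field_simp
      _ ≤ c / 2 * (b * r ^ 2) * r ^ 2 := by
          apply mul_le_mul_of_nonneg_right _ (by positivity)
          exact mul_le_mul_of_nonneg_left hβb (by positivity)
      _ = c / 2 * b * r ^ 4 := by ring
  have h5 : C * (1 + Real.log (1 / b)) ^ 2 * b ^ 2 ≤ c / 2 * b * r ^ 4 * b ^ 2 :=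
    mul_le_mul_of_nonneg_right h4 (by positivity)
  have h6 : c * b ^ 3 * r ^ 4 - c / 2 * b * r ^ 4 * b ^ 2 = c / 2 * b ^ 3 * r ^ 4 := by ring
  linarith

lemma fin_A (hCK : ST_CK) (hCOR : ST_COR) {C₀ : ℝ} (hC₀ : 0 ≤ C₀) :
    ∃ cA R₀ : ℝ, 0 < cA ∧ 1 ≤ R₀ ∧
    ∀ {H L Rd e : ℝ} {m : ℕ} {V Vf : Finset ℕ} {w t : ℕ → ℝ} {n : ℕ → ℕ}, 0 ≤ e →
      MSum C₀ H L Rd m e V Vf w t n → MSgn C₀ e V w t → ∀ r : ℝ, R₀ ≤ r →
      ∑ v ∈ V, w v = r ^ 4 → cA / r ^ 2 ≤ e := by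
  obtain ⟨b₀, c, C, hb₀, hb₀6, hc, hC, hcor⟩ := hCOR C₀ hC₀
  obtain ⟨β, hβ⟩ : ∃ β : ℝ, β = √b₀ := ⟨_, rfl⟩
  have hβ0 : 0 < β := by rw [hβ]; positivity
  have hβ2 : β ^ 2 = b₀ := by rw [hβ]; exact Real.sq_sqrt hb₀.le
  obtain ⟨η, hη⟩ : ∃ η : ℝ, η = min (1 / 2) (c * b₀ / (C₀ + 1)) := ⟨_, rfl⟩
  have hη0 : 0 < η := by rw [hη]; exact lt_min (by norm_num) (by positivity)
  have hη2 : η ≤ 1 / 2 := by rw [hη]; exact min_le_left _ _
  have hηc : C₀ * η ≤ c * b₀ := by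
    have h1 : η ≤ c * b₀ / (C₀ + 1) := by rw [hη]; exact min_le_right _ _
    rw [le_div_iff₀ (by positivity)] at h1
    nlinarith
  refine ⟨min (η ^ 3 / 5184000) (c / 2 * b₀ ^ 3),
    max 1 (max (32 * C / (c * β ^ 3)) (160 * C₀ / η)), lt_min (by positivity) (by positivity),
    le_max_left _ _, ?_⟩
  intro H L Rd e m V Vf w t n he hM hS r hr hW
  have hr1 : 1 ≤ r := (le_max_left _ _).trans hr
  have hr2 : 32 * C ≤ c * β ^ 3 * r := by
    have h1 : 32 * C / (c * β ^ 3) ≤ r :=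
      ((le_max_left _ _).trans (le_max_right _ _)).trans hr
    rw [div_le_iff₀ (by positivity)] at h1
    linarith
  have hr3 : 160 * C₀ ≤ η * r := by
    have h1 : 160 * C₀ / η ≤ r := ((le_max_right _ _).trans (le_max_right _ _)).trans hr
    rw [div_le_iff₀ hη0] at h1
    linarith
  have hr0 : 0 < r := by linarith
  have hrr : r ≤ r ^ 2 := by nlinarith
  have hr21 : 1 ≤ r ^ 2 := by linarith
  by_cases hbig : ∃ v ∈ V, η * r ^ 2 ≤ w v
  · obtain ⟨v₀, hv₀, hv₁⟩ := hbig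
    have h1 := kfin_CK hCK hM (κ := η / r ^ 2) (by positivity)
      (by rw [div_le_one (by positivity)]; linarith) hv₀
      (by
        rw [hW]
        calc η / r ^ 2 * r ^ 4 = η * r ^ 2 := by field_simp
          _ ≤ w v₀ := hv₁)
      (by
        rw [hW]
        calc 160 * C₀ ≤ η * r := hr3
          _ ≤ η * r ^ 2 := mul_le_mul_of_nonneg_left hrr hη0.le
          _ = η / r ^ 2 * r ^ 4 := by field_simp)
    rw [hW] at h1
    refine le_trans ?_ h1
    calc min (η ^ 3 / 5184000) (c / 2 * b₀ ^ 3) / r ^ 2 ≤ (η ^ 3 / 5184000) / r ^ 2 :=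
          div_le_div_of_nonneg_right (min_le_left _ _) (by positivity)
      _ = (η / r ^ 2) ^ 3 * r ^ 4 / 5184000 := by field_simp
  · push Not at hbig
    have hnn := hM.nonneg
    have hsub := hM.sub
    obtain ⟨G, hG⟩ : ∃ G : Finset ℕ, G = Vf.filter (fun v => w v ≠ 0) := ⟨_, rfl⟩
    have hGf : G ⊆ Vf := by rw [hG]; exact Finset.filter_subset _ _
    have hlog2 : (1 / 2 : ℝ) < Real.log 2 := by
      have := Real.log_two_gt_d9; linarith
    have h1 := fin_cor hc hC hb₀6 hcor hβ0 he hM hS (b := b₀ / r ^ 2) (r := r) (by positivity)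
      (div_le_self hb₀.le hr21) hr0 hW
      (by rw [hβ2]; exact le_of_eq (by field_simp)) hr2 G hGf
      (by
        intro v hv
        rw [hG, Finset.mem_filter] at hv
        have h2 := hM.nle v hv.1 hv.2
        have h3 := hbig v (hsub hv.1)
        have h4 : (0 : ℝ) ≤ n v := Nat.cast_nonneg _
        have h5 : (n v : ℝ) * (1 / 2) ≤ 1 / 2 * r ^ 2 := by
          calc (n v : ℝ) * (1 / 2) ≤ n v * Real.log 2 := mul_le_mul_of_nonneg_left hlog2.le h4
            _ ≤ w v := h2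
            _ ≤ η * r ^ 2 := h3.le
            _ ≤ 1 / 2 * r ^ 2 := mul_le_mul_of_nonneg_right hη2 (by positivity)
        have h6 : (n v : ℝ) ≤ r ^ 2 := by linarith
        calc 3 * (b₀ / r ^ 2) * n v ≤ 3 * (b₀ / r ^ 2) * r ^ 2 :=
              mul_le_mul_of_nonneg_left h6 (by positivity)
          _ = 3 * b₀ := by field_simp
          _ ≤ 1 := by linarith)
      (by
        have h2 : ∑ v ∈ V \ Vf, w v = ∑ v ∈ V \ G, w v := by
          apply Finset.sum_subset (Finset.sdiff_subset_sdiff (Finset.Subset.refl _) hGf)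
          intro v hv hv'
          rw [Finset.mem_sdiff] at hv hv'
          by_contra h0
          apply hv.2
          rw [hG, Finset.mem_filter]
          refine ⟨?_, h0⟩
          by_contra h3
          exact hv' ⟨hv.1, h3⟩
        rw [← h2, hW]
        calc ∑ v ∈ V \ Vf, w v ≤ ∑ _v ∈ V \ Vf, η * r ^ 2 :=
              Finset.sum_le_sum (fun v hv => (hbig v (Finset.mem_sdiff.1 hv).1).le)
          _ = ((V \ Vf).card : ℝ) * (η * r ^ 2) := by rw [Finset.sum_const, nsmul_eq_mul]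
          _ ≤ C₀ * (η * r ^ 2) := mul_le_mul_of_nonneg_right hM.card (by positivity)
          _ = C₀ * η * r ^ 2 := by ring
          _ ≤ c * b₀ * r ^ 2 := mul_le_mul_of_nonneg_right hηc (by positivity)
          _ = c * (b₀ / r ^ 2) * r ^ 4 := by field_simp)
    refine le_trans ?_ h1
    calc min (η ^ 3 / 5184000) (c / 2 * b₀ ^ 3) / r ^ 2 ≤ (c / 2 * b₀ ^ 3) / r ^ 2 :=
          div_le_div_of_nonneg_right (min_le_right _ _) (by positivity)
      _ = c / 2 * (b₀ / r ^ 2) ^ 3 * r ^ 4 := by field_simp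

lemma fin_B (hCK : ST_CK) (hCOR : ST_COR) {C₀ : ℝ} (hC₀ : 0 ≤ C₀) :
    ∃ cB R₀ : ℝ, 0 < cB ∧ 1 ≤ R₀ ∧
    ∀ {H L Rd e : ℝ} {m : ℕ} {V Vf : Finset ℕ} {w t : ℕ → ℝ} {n : ℕ → ℕ}, 0 ≤ e →
      MSum C₀ H L Rd m e V Vf w t n → MSgn C₀ e V w t → ∀ r : ℝ, R₀ ≤ r →
      ∑ v ∈ V, w v = r ^ 4 → ∀ E : ℝ, 1 ≤ E → E ^ 2 ≤ 3 * r ^ 4 → ∀ LL : ℝ,
      ∑ v ∈ Vf.filter (fun v => E + C₀ < (n v : ℝ)), w v ≤ LL + C₀ →
      E * LL ≤ cB * (3 * r ^ 4) → cB * r ^ 4 / E ^ 3 ≤ e := by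
  obtain ⟨b₀, c, C, hb₀, hb₀6, hc, hC, hcor⟩ := hCOR C₀ hC₀
  obtain ⟨κ, hκ⟩ : ∃ κ : ℝ, κ = c * b₀ / (C₀ + 2) := ⟨_, rfl⟩
  have hκ0 : 0 < κ := by rw [hκ]; positivity
  obtain ⟨β, hβ⟩ : ∃ β : ℝ, β = √(b₀ / (2 * (C₀ + 2))) := ⟨_, rfl⟩
  have hβ0 : 0 < β := by rw [hβ]; positivity
  have hβ2 : β ^ 2 = b₀ / (2 * (C₀ + 2)) := by rw [hβ]; exact Real.sq_sqrt (by positivity)
  obtain ⟨η, hη⟩ : ∃ η : ℝ, η = min 1 (κ / (3 * (C₀ + 1))) := ⟨_, rfl⟩
  have hη0 : 0 < η := by rw [hη]; exact lt_min (by norm_num) (by positivity)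
  have hη1 : η ≤ 1 := by rw [hη]; exact min_le_left _ _
  have hηc : C₀ * η ≤ κ / 3 := by
    have h1 : η ≤ κ / (3 * (C₀ + 1)) := by rw [hη]; exact min_le_right _ _
    rw [le_div_iff₀ (by positivity)] at h1
    nlinarith
  obtain ⟨cB, hcB⟩ : ∃ cB : ℝ, cB = min (κ / 9)
    (min (η ^ 3 / 5184000) (c / 2 * (b₀ / (C₀ + 2)) ^ 3)) := ⟨_, rfl⟩
  have hcB0 : 0 < cB := by
    rw [hcB]; exact lt_min (by positivity) (lt_min (by positivity) (by positivity))
  have hcB1 : cB ≤ κ / 9 := by rw [hcB]; exact min_le_left _ _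
  have hcB2 : cB ≤ η ^ 3 / 5184000 := by
    rw [hcB]; exact (min_le_right _ _).trans (min_le_left _ _)
  have hcB3 : cB ≤ c / 2 * (b₀ / (C₀ + 2)) ^ 3 := by
    rw [hcB]; exact (min_le_right _ _).trans (min_le_right _ _)
  refine ⟨cB, max 1 (max (32 * C / (c * β ^ 3)) (max (320 * C₀ / η) (6 * C₀ / κ))), hcB0,
    le_max_left _ _, ?_⟩
  intro H L Rd e m V Vf w t n he hM hS r hr hW E hE hE2 LL hLL hELL
  have hr1 : 1 ≤ r := (le_max_left _ _).trans hr
  have hr2 : 32 * C ≤ c * β ^ 3 * r := by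
    have h1 : 32 * C / (c * β ^ 3) ≤ r :=
      ((le_max_left _ _).trans (le_max_right _ _)).trans hr
    rw [div_le_iff₀ (by positivity)] at h1
    linarith
  have hr3 : 320 * C₀ ≤ η * r := by
    have h1 : 320 * C₀ / η ≤ r :=
      ((le_max_left _ _).trans ((le_max_right _ _).trans (le_max_right _ _))).trans hr
    rw [div_le_iff₀ hη0] at h1
    linarith
  have hr4 : 6 * C₀ ≤ κ * r := by
    have h1 : 6 * C₀ / κ ≤ r :=
      ((le_max_right _ _).trans ((le_max_right _ _).trans (le_max_right _ _))).trans hr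
    rw [div_le_iff₀ hκ0] at h1
    linarith
  have hr0 : 0 < r := by linarith
  have hE0 : 0 < E := by linarith
  have hrr : r ≤ r ^ 2 := by nlinarith
  have hr21 : 1 ≤ r ^ 2 := by linarith
  have hE2r : E ≤ 2 * r ^ 2 := by
    apply le_of_sq_le_sq _ (by positivity)
    calc E ^ 2 ≤ 3 * r ^ 4 := hE2
      _ ≤ 4 * r ^ 4 := by
        apply mul_le_mul_of_nonneg_right (by norm_num) (by positivity)
      _ = (2 * r ^ 2) ^ 2 := by ring
  -- W / E is at least r ^ 2 / 2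
  have hWE : r / 2 ≤ r ^ 4 / E := by
    rw [div_le_div_iff₀ (by norm_num) hE0]
    calc r * E ≤ r ^ 2 * (2 * r ^ 2) := mul_le_mul hrr hE2r hE0.le (by positivity)
      _ = r ^ 4 * 2 := by ring
  by_cases hbig : ∃ v ∈ V \ Vf, η / E * r ^ 4 ≤ w v
  · obtain ⟨v₀, hv₀, hv₁⟩ := hbig
    have h1 := kfin_CK hCK hM (κ := η / E) (by positivity)
      (by rw [div_le_one hE0]; linarith) (Finset.mem_sdiff.1 hv₀).1
      (by rw [hW]; exact hv₁)
      (by
        rw [hW]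
        calc 160 * C₀ ≤ η * (r / 2) := by linarith
          _ ≤ η * (r ^ 4 / E) := mul_le_mul_of_nonneg_left hWE hη0.le
          _ = η / E * r ^ 4 := by ring)
    rw [hW] at h1
    refine le_trans ?_ h1
    calc cB * r ^ 4 / E ^ 3 = cB * (r ^ 4 / E ^ 3) := by ring
      _ ≤ η ^ 3 / 5184000 * (r ^ 4 / E ^ 3) := mul_le_mul_of_nonneg_right hcB2 (by positivity)
      _ = (η / E) ^ 3 * r ^ 4 / 5184000 := by field_simp
  · push Not at hbig
    have hnn := hM.nonneg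
    have hsub := hM.sub
    obtain ⟨G, hG⟩ : ∃ G : Finset ℕ, G = Vf.filter (fun v => (n v : ℝ) ≤ E + C₀) := ⟨_, rfl⟩
    have hGf : G ⊆ Vf := by rw [hG]; exact Finset.filter_subset _ _
    have hEC : E + C₀ + 1 ≤ (C₀ + 2) * E := by nlinarith
    have hEC0 : 0 < E + C₀ + 1 := by linarith
    have hblow : b₀ / ((C₀ + 2) * E) ≤ b₀ / (E + C₀ + 1) :=
      div_le_div_of_nonneg_left hb₀.le hEC0 hEC
    have h1 := fin_cor hc hC hb₀6 hcor hβ0 he hM hS (b := b₀ / (E + C₀ + 1)) (r := r)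
      (by positivity) (div_le_self hb₀.le (by linarith)) hr0 hW
      (by
        rw [hβ2]
        calc b₀ / (2 * (C₀ + 2)) = b₀ / ((C₀ + 2) * (2 * r ^ 2)) * r ^ 2 := by field_simp
          _ ≤ b₀ / ((C₀ + 2) * E) * r ^ 2 := by
              apply mul_le_mul_of_nonneg_right _ (by positivity)
              apply div_le_div_of_nonneg_left hb₀.le (by positivity)
              exact mul_le_mul_of_nonneg_left hE2r (by positivity)
          _ ≤ b₀ / (E + C₀ + 1) * r ^ 2 := mul_le_mul_of_nonneg_right hblow (by positivity))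
      hr2 G hGf
      (by
        intro v hv
        rw [hG, Finset.mem_filter] at hv
        have h2 := hv.2
        calc 3 * (b₀ / (E + C₀ + 1)) * n v ≤ 3 * (b₀ / (E + C₀ + 1)) * (E + C₀ + 1) := by
              apply mul_le_mul_of_nonneg_left _ (by positivity)
              linarith
          _ = 3 * b₀ := by field_simp
          _ ≤ 1 := by linarith)
      (by
        have hun : V \ G = (V \ Vf) ∪ Vf.filter (fun v => E + C₀ < (n v : ℝ)) := by
          ext v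
          rw [hG, Finset.mem_sdiff, Finset.mem_union, Finset.mem_sdiff, Finset.mem_filter,
            Finset.mem_filter]
          constructor
          · rintro ⟨h2, h3⟩
            by_cases h4 : v ∈ Vf
            · right
              refine ⟨h4, ?_⟩
              by_contra h5
              exact h3 ⟨h4, not_lt.1 h5⟩
            · exact Or.inl ⟨h2, h4⟩
          · rintro (⟨h2, h3⟩ | ⟨h2, h3⟩)
            · exact ⟨h2, fun h4 => h3 h4.1⟩
            · exact ⟨hsub h2, fun h4 => absurd h3 (not_lt.2 h4.2)⟩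
        have hdis : Disjoint (V \ Vf) (Vf.filter (fun v => E + C₀ < (n v : ℝ))) := by
          rw [Finset.disjoint_left]
          intro v hv hv'
          exact (Finset.mem_sdiff.1 hv).2 (Finset.mem_filter.1 hv').1
        rw [hun, Finset.sum_union hdis, hW]
        have h2 : ∑ v ∈ V \ Vf, w v ≤ κ / 3 * (r ^ 4 / E) := by
          calc ∑ v ∈ V \ Vf, w v ≤ ∑ _v ∈ V \ Vf, η / E * r ^ 4 :=
                Finset.sum_le_sum (fun v hv => (hbig v hv).le)
            _ = ((V \ Vf).card : ℝ) * (η / E * r ^ 4) := by rw [Finset.sum_const, nsmul_eq_mul]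
            _ ≤ C₀ * (η / E * r ^ 4) := mul_le_mul_of_nonneg_right hM.card (by positivity)
            _ = C₀ * η * (r ^ 4 / E) := by ring
            _ ≤ κ / 3 * (r ^ 4 / E) := mul_le_mul_of_nonneg_right hηc (by positivity)
        have h3 : LL ≤ κ / 3 * (r ^ 4 / E) := by
          have h4 : LL ≤ cB * (3 * r ^ 4) / E := by
            rw [le_div_iff₀ hE0]; linarith
          calc LL ≤ cB * (3 * r ^ 4) / E := h4
            _ = 3 * cB * (r ^ 4 / E) := by ring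
            _ ≤ κ / 3 * (r ^ 4 / E) := by
              apply mul_le_mul_of_nonneg_right _ (by positivity)
              linarith
        have h4 : C₀ ≤ κ / 3 * (r ^ 4 / E) := by
          calc C₀ ≤ κ / 3 * (r / 2) := by linarith
            _ ≤ κ / 3 * (r ^ 4 / E) := mul_le_mul_of_nonneg_left hWE (by positivity)
        have h5 : κ * (r ^ 4 / E) ≤ c * (b₀ / (E + C₀ + 1)) * r ^ 4 := by
          calc κ * (r ^ 4 / E) = c * (b₀ / ((C₀ + 2) * E)) * r ^ 4 := by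
                rw [hκ]; field_simp
            _ ≤ c * (b₀ / (E + C₀ + 1)) * r ^ 4 := by
                apply mul_le_mul_of_nonneg_right _ (by positivity)
                exact mul_le_mul_of_nonneg_left hblow hc.le
        linarith)
    refine le_trans ?_ h1
    calc cB * r ^ 4 / E ^ 3 = cB * (r ^ 4 / E ^ 3) := by ring
      _ ≤ c / 2 * (b₀ / (C₀ + 2)) ^ 3 * (r ^ 4 / E ^ 3) :=
          mul_le_mul_of_nonneg_right hcB3 (by positivity)
      _ = c / 2 * (b₀ / ((C₀ + 2) * E)) ^ 3 * r ^ 4 := by field_simp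
      _ ≤ c / 2 * (b₀ / (E + C₀ + 1)) ^ 3 * r ^ 4 := by
          apply mul_le_mul_of_nonneg_right _ (by positivity)
          apply mul_le_mul_of_nonneg_left _ (by positivity)
          exact pow_le_pow_left₀ (by positivity) hblow 3

theorem st_FIN (hKM : ST_KMT2) (hCOR : ST_COR) (hCK : ST_CK) (hSM : ST_KSM) : ST_LV := by
  intro K _ _
  obtain ⟨C₀, hC₀, hKM⟩ := hKM K
  obtain ⟨cA, RA, hcA, hRA, hA⟩ := fin_A hCK hCOR hC₀
  obtain ⟨cB, RB, hcB, hRB, hB⟩ := fin_B hCK hCOR hC₀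
  obtain ⟨R₀, hR₀⟩ : ∃ R₀ : ℝ, R₀ = max RA RB := ⟨_, rfl⟩
  have hR₀1 : 1 ≤ R₀ := by rw [hR₀]; exact hRA.trans (le_max_left _ _)
  obtain ⟨H₀, hH₀⟩ : ∃ H₀ : ℝ, H₀ = 2 * (R₀ ^ 4 + 1 + 3 * C₀) := ⟨_, rfl⟩
  have hH₀0 : 0 < H₀ := by rw [hH₀]; positivity
  obtain ⟨cs, hcs, hsmall⟩ := hSM K H₀
  obtain ⟨c, hcd⟩ : ∃ c : ℝ, c = min (cs / (1 + H₀)) (min (cA / (1 + C₀)) (cB / 3)) := ⟨_, rfl⟩
  have hc : 0 < c := by
    rw [hcd]; exact lt_min (by positivity) (lt_min (by positivity) (by positivity))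
  have hc1 : c ≤ cs / (1 + H₀) := by rw [hcd]; exact min_le_left _ _
  have hc2 : c ≤ cA / (1 + C₀) := by
    rw [hcd]; exact (min_le_right _ _).trans (min_le_left _ _)
  have hc3 : c ≤ cB / 3 := by
    rw [hcd]; exact (min_le_right _ _).trans (min_le_right _ _)
  refine ⟨c, hc, ?_⟩
  intro A B hD x y e hg he
  obtain ⟨hLD0, H, hLDH, hHK, hHK2, V, Vf, w, t, n, hM, hS, hX⟩ := hKM A B hD x y e hg he
  have hHK0 : 0 ≤ HK A B := by linarith
  obtain ⟨X, hXd⟩ : ∃ X : ℝ, X = 1 + HK A B := ⟨_, rfl⟩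
  have hX1 : 1 ≤ X := by rw [hXd]; linarith
  have hX0 : 0 < X := by linarith
  rw [← hXd]
  have hpow : X ^ (-(1 / 2 : ℝ)) = 1 / √X := by
    rw [Real.rpow_neg hX0.le, ← Real.sqrt_eq_rpow, one_div]
  have hsX1 : 1 ≤ √X := Real.one_le_sqrt.2 hX1
  have hsX : √X ^ 2 = X := Real.sq_sqrt hX0.le
  by_cases hHs : HK A B ≤ H₀
  · have h1 := hsmall A B hD hHs x y e hg he
    have h2 : c * (1 + H₀) ≤ e := by
      rw [le_div_iff₀ (by positivity)] at hc1
      linarith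
    constructor
    · rw [hpow]
      calc c * (1 / √X) ≤ c * 1 := by
            apply mul_le_mul_of_nonneg_left _ hc.le
            rw [div_le_one (by linarith)]
            exact hsX1
        _ ≤ c * (1 + H₀) := mul_le_mul_of_nonneg_left (by linarith) hc.le
        _ ≤ e := h2
    · intro E hE _
      have hE3 : 1 ≤ E ^ 3 := one_le_pow₀ hE
      calc c * X / E ^ 3 ≤ c * X := div_le_self (by positivity) hE3
        _ ≤ c * (1 + H₀) := mul_le_mul_of_nonneg_left (by rw [hXd]; linarith) hc.le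
        _ ≤ e := h2
  push Not at hHs
  have he0 : 0 < e := by
    obtain ⟨c', hc', h'⟩ := hSM K (HK A B)
    exact lt_of_lt_of_le hc' (h' A B hD le_rfl x y e hg he)
  have htot := abs_le.1 hM.total
  obtain ⟨W, hW⟩ : ∃ W : ℝ, W = ∑ v ∈ V, w v := ⟨_, rfl⟩
  rw [← hW] at htot
  have hWbig : R₀ ^ 4 + 1 + 2 * C₀ ≤ W := by linarith
  have hR4 : 1 ≤ R₀ ^ 4 := one_le_pow₀ hR₀1
  have hW0 : 0 < W := by linarith
  have hXW : X ≤ 3 * W := by rw [hXd]; linarith
  have hWX : W ≤ (1 + C₀) * X := by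
    rw [hXd]; nlinarith
  obtain ⟨r, hr⟩ : ∃ r : ℝ, r = √(√W) := ⟨_, rfl⟩
  have hr0 : 0 ≤ r := by rw [hr]; positivity
  have hr2 : r ^ 2 = √W := by rw [hr]; exact Real.sq_sqrt (Real.sqrt_nonneg _)
  have hr4 : r ^ 4 = W := by
    calc r ^ 4 = (r ^ 2) ^ 2 := by ring
      _ = W := by rw [hr2]; exact Real.sq_sqrt hW0.le
  have hRr : R₀ ≤ r := by
    apply le_of_pow_le_pow_left₀ (by norm_num : (4 : ℕ) ≠ 0) hr0
    rw [hr4]; linarith
  have hRAr : RA ≤ r := le_trans (by rw [hR₀]; exact le_max_left _ _) hRr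
  have hRBr : RB ≤ r := le_trans (by rw [hR₀]; exact le_max_right _ _) hRr
  have hAA := hA he0.le hM hS r hRAr (by rw [hr4, hW])
  have hpart1 : c * (1 / √X) ≤ e := by
    refine le_trans ?_ hAA
    rw [hr2]
    have hsW : √W ≤ (1 + C₀) * √X := by
      rw [Real.sqrt_le_left (by positivity)]
      calc W ≤ (1 + C₀) * X := hWX
        _ ≤ (1 + C₀) ^ 2 * X := by
          apply mul_le_mul_of_nonneg_right _ hX0.le
          nlinarith
        _ = ((1 + C₀) * √X) ^ 2 := by rw [mul_pow, hsX]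
    have hsW0 : 0 < √W := Real.sqrt_pos.2 hW0
    rw [mul_one_div, div_le_div_iff₀ (by linarith) hsW0]
    calc c * √W ≤ (cA / (1 + C₀)) * ((1 + C₀) * √X) :=
          mul_le_mul hc2 hsW hsW0.le (by positivity)
      _ = cA * √X := by field_simp
  constructor
  · rw [hpow]; exact hpart1
  · intro E hE hEX
    have hE0 : 0 < E := by linarith
    by_cases hEs : √X ≤ E
    · refine le_trans ?_ hpart1
      rw [mul_one_div, div_le_div_iff₀ (by positivity) (by linarith)]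
      calc c * X * √X = c * √X ^ 3 := by
            rw [show √X ^ 3 = √X ^ 2 * √X by ring, hsX]; ring
        _ ≤ c * E ^ 3 := by
            apply mul_le_mul_of_nonneg_left _ hc.le
            exact pow_le_pow_left₀ (by linarith) hEs 3
    · push Not at hEs
      have hE2 : E ^ 2 ≤ 3 * r ^ 4 := by
        rw [hr4]
        calc E ^ 2 ≤ √X ^ 2 := pow_le_pow_left₀ hE0.le hEs.le 2
          _ = X := hsX
          _ ≤ 3 * W := hXW
      have h1 := hB he0.le hM hS r hRBr (by rw [hr4, hW]) E hE hE2 (LX A B E) (hX E hE0.le)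
        (by
          rw [hr4]
          calc E * LX A B E ≤ c * X := hEX
            _ ≤ cB * (3 * W) := by
              apply mul_le_mul _ hXW hX0.le hcB.le
              linarith)
      rw [hr4] at h1
      refine le_trans ?_ h1
      apply div_le_div_of_nonneg_right _ (by positivity)
      calc c * X ≤ cB / 3 * (3 * W) := mul_le_mul hc3 hXW hX0.le (by positivity)
        _ = cB * W := by ring

end Pool.Agent.Helper92.LV
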